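import Pool.Agent.H75.L.W662.CB.Stmts

/-!
# Project CB: one box (S_F0)
-/

set_option autoImplicit false

open MeasureTheory Filter Topology Complex
open scoped InnerProductSpace ENNReal

namespace Pool.Agent.W428.CB.F0

open Pool.Agent.W662.CB

section aux

variable {K : Type} [NormedAddCommGroup K] [InnerProductSpace ℂ K] [CompleteSpace K]

theorem norm_proj_le (p : K →L[ℂ] K) (h1 : p * p = p) (h2 : star p = p) : ‖p‖ ≤ 1 := by
  have h3 : ‖p‖ * ‖p‖ = ‖p‖ := by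
    have := CStarRing.norm_star_mul_self (x := p)
    rw [h2, h1] at this
    exact this.symm
  nlinarith [norm_nonneg p, sq_nonneg (‖p‖ - 1)]

theorem pu (p u : K →L[ℂ] K) (h1 : p * p = p) (h2 : star p = p) (h3 : u * star u = p) :
    p * u = u := by
  have h4 : (u - p * u) * star (u - p * u) = 0 := by
    rw [star_sub, star_mul, h2]
    have : (u - p * u) * (star u - star u * p) =
        u * star u - u * star u * p - p * (u * star u) + p * (u * star u) * p := by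
      noncomm_ring
    rw [this, h3, h1, h1]
    abel
  have h5 : u - p * u = 0 := by
    rw [← CStarRing.mul_star_self_eq_zero_iff]
    exact h4
  exact (sub_eq_zero.1 h5).symm

theorem up (p u : K →L[ℂ] K) (h1 : p * p = p) (h2 : star p = p) (h3 : star u * u = p) :
    u * p = u := by
  have := pu p (star u) h1 h2 (by rw [star_star]; exact h3)
  have h4 := congrArg star this
  rw [star_mul, star_star, h2] at h4
  exact h4

theorem norm_u_le (p u : K →L[ℂ] K) (h1 : p * p = p) (h2 : star p = p) (h3 : star u * u = p) :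
    ‖u‖ ≤ 1 := by
  have h4 : ‖u‖ * ‖u‖ = ‖p‖ := by
    rw [← CStarRing.norm_star_mul_self, h3]
  have h5 := norm_proj_le p h1 h2
  nlinarith [norm_nonneg u]

theorem kap_le {H : Type} [NormedAddCommGroup H] [InnerProductSpace ℂ H] [CompleteSpace H]
    (κ : (H →L[ℂ] H) →⋆ₐ[ℂ] (K →L[ℂ] K)) (x : H →L[ℂ] H) : ‖κ x‖ ≤ ‖x‖ :=
  NonUnitalStarAlgHom.norm_apply_le κ x

end aux

theorem f0 (h1 : S_B1) (h2 : S_B2) (h5 : S_B5) (h6 : S_B6) (hd1 : S_D1) (hd2 : S_D2)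
    (hd3 : S_D3) : S_F0 := by
  have _ := h2
  intro H K _ _ _ _ _ _ M N ξ U hstd κ V A B hAB hBM hAN hirr J E T δ hbox hEA x r hx hκx hr hY
  set p : K →L[ℂ] K := E 0 with hp
  have hpp : p * p = p := by rw [hp, ← hbox.E_add, add_zero]
  have hps : star p = p := by rw [hp, hbox.E_star, map_zero, neg_zero]
  set ζ : K := E (-I / 2) (J ξ) with hζ
  have hpζ : p ζ = ζ := by
    have := hbox.E_add 0 (-I / 2)
    rw [zero_add] at this
    rw [hζ]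
    conv_rhs => rw [this]
    rfl
  have hJn : ∀ v : H, ‖J v‖ = ‖v‖ := (h1 H K M ξ U κ V J E T δ hstd.modular hbox).2.2.2.2.1
  have hJξ : ‖J ξ‖ = 1 := by rw [hJn, hstd.unit]
  have hζJ : ‖ζ - J ξ‖ ≤ δ := by
    have e1 : ζ - J ξ = (E (-I / 2) - E 0) (J ξ) := by
      rw [_root_.sub_apply, hbox.E_J]
    rw [e1]
    calc ‖(E (-I / 2) - E 0) (J ξ)‖ ≤ ‖E (-I / 2) - E 0‖ * ‖J ξ‖ := ContinuousLinearMap.le_opNorm _ _
      _ ≤ δ := by rw [hJξ, mul_one]; exact hbox.nE3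
  have hpA : p ∈ A := hEA
  have hκp : κ x * p = p * κ x := hbox.κ_E x 0
  have hZB : κ x * p ∈ B := mul_mem hκx (hAB p hpA)
  have hZp : p * (κ x * p) * p = κ x * p := by
    rw [← mul_assoc, ← hκp, mul_assoc, mul_assoc, hpp, hpp]
  have hκn : ‖κ x‖ ≤ ‖x‖ := kap_le κ x
  have hδ := hbox.δ_nonneg
  have hu : ∀ u : K →L[ℂ] K, u ∈ A → star u * u = p → u * star u = p →
      ‖(u * (κ x * p) - (κ x * p) * u) ζ‖ ≤ r + 2 * ‖x‖ * δ := by
    intro u huA hu1 hu2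
    have hpu := pu p u hpp hps hu2
    have hup := up p u hpp hps hu1
    have hun := norm_u_le p u hpp hps hu1
    have e1 : (u * (κ x * p) - (κ x * p) * u) ζ = (u * κ x - κ x * u) ζ := by
      have e2 : (κ x * p) * u = κ x * u := by rw [mul_assoc, hpu]
      rw [e2]
      change u (κ x (p ζ)) - κ x (u ζ) = u (κ x ζ) - κ x (u ζ)
      rw [hpζ]
    have e3 : (u * κ x - κ x * u) ζ = (u * κ x - κ x * u) (J ξ) +
        (u * κ x - κ x * u) (ζ - J ξ) := by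
      rw [map_sub]; abel
    have e4 : ‖(u * κ x - κ x * u) (J ξ)‖ ≤ r :=
      hY u huA (by rw [hpu, hup]) hun
    have e5 : ‖u * κ x - κ x * u‖ ≤ 2 * ‖x‖ := by
      calc ‖u * κ x - κ x * u‖ ≤ ‖u * κ x‖ + ‖κ x * u‖ := norm_sub_le _ _
        _ ≤ ‖u‖ * ‖κ x‖ + ‖κ x‖ * ‖u‖ := add_le_add (norm_mul_le _ _) (norm_mul_le _ _)
        _ ≤ 1 * ‖x‖ + ‖x‖ * 1 := by gcongr
        _ = 2 * ‖x‖ := by ring
    rw [e1, e3]
    calc ‖(u * κ x - κ x * u) (J ξ) + (u * κ x - κ x * u) (ζ - J ξ)‖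
        ≤ ‖(u * κ x - κ x * u) (J ξ)‖ + ‖(u * κ x - κ x * u) (ζ - J ξ)‖ := norm_add_le _ _
      _ ≤ r + ‖u * κ x - κ x * u‖ * ‖ζ - J ξ‖ :=
        add_le_add e4 (ContinuousLinearMap.le_opNorm _ _)
      _ ≤ r + 2 * ‖x‖ * δ := by gcongr
  obtain ⟨Z0, hZ0B, hZ0p, hZ0n, hZ0u⟩ := hd2 K A B hAB p hpA hpp hps ζ hpζ
    (fun Z hZ hZp => h5 H K M ξ U κ V J E T δ hstd.modular hbox Z (hBM Z hZ) hZp)
    (fun Z hZ hZp hZ0 => h6 H K M ξ U κ V J E T δ hstd.modular hstd.sep hbox Z (hBM Z hZ) hZp hZ0)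
    (κ x * p) (r + 2 * ‖x‖ * δ) hZB hZp hu
  have hcomm := hd3 K A p hpA hpp hps Z0 hZ0p hZ0u
  obtain ⟨c, hc⟩ := hd1 K A B hAB hirr p hpA hpp hps Z0 hZ0B hZ0p hcomm
  refine ⟨c, ?_⟩
  have e6 : (κ x * p - Z0) ζ = (κ x - c • (1 : K →L[ℂ] K)) ζ := by
    rw [hc]
    change κ x (p ζ) - c • (p ζ) = κ x ζ - c • ζ
    rw [hpζ]
  rw [e6] at hZ0n
  have e7 : J ((x - c • (1 : H →L[ℂ] H)) ξ) = (κ x - c • (1 : K →L[ℂ] K)) (J ξ) := by
    change J (x ξ - c • ξ) = κ x (J ξ) - c • J ξ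
    rw [map_sub, map_smul, hbox.κ_J]
  have e8 : J ξ = E (I / 2) ζ := by
    have := hbox.E_add (I / 2) (-I / 2)
    have h0 : I / 2 + -I / 2 = (0 : ℂ) := by ring
    rw [h0] at this
    rw [hζ]
    change J ξ = (E (I / 2) * E (-I / 2)) (J ξ)
    rw [← this, hbox.E_J]
  have e9 : (κ x - c • (1 : K →L[ℂ] K)) (J ξ) = E (I / 2) ((κ x - c • (1 : K →L[ℂ] K)) ζ) := by
    rw [e8]
    change κ x (E (I / 2) ζ) - c • (E (I / 2) ζ) = E (I / 2) (κ x ζ - c • ζ)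
    rw [map_sub, map_smul]
    congr 1
    change (κ x * E (I / 2)) ζ = (E (I / 2) * κ x) ζ
    rw [hbox.κ_E]
  have e10 : ‖E (I / 2)‖ ≤ 2 := by
    have h7 : ‖E (I / 2)‖ ≤ ‖E (I / 2) - E 0‖ + ‖E 0‖ := by
      calc ‖E (I / 2)‖ = ‖(E (I / 2) - E 0) + E 0‖ := by rw [sub_add_cancel]
        _ ≤ _ := norm_add_le _ _
    have h8 := hbox.nE4
    have h9 := hbox.δ_le
    have h10 : ‖E 0‖ ≤ 1 := norm_proj_le p hpp hps
    linarith
  rw [← hJn, e7, e9]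
  calc ‖E (I / 2) ((κ x - c • (1 : K →L[ℂ] K)) ζ)‖
      ≤ ‖E (I / 2)‖ * ‖(κ x - c • (1 : K →L[ℂ] K)) ζ‖ := ContinuousLinearMap.le_opNorm _ _
    _ ≤ 2 * (r + 2 * ‖x‖ * δ) := by gcongr

end Pool.Agent.W428.CB.F0
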